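import Pool.Agent.Q153.EX.AppA
import Pool.Agent.Q240.EX.Stm2

/-!
# Project EX (helper240), job App: approximation in the form domain
-/

set_option autoImplicit false

open Complex Filter Topology Set MeasureTheory
open Pool.Agent.Q240.EX

namespace Pool.Agent.Q153.EX

open Pool.Agent.Y23 (TT Fa LL)
open Pool.Agent.Y23.G.F (Hn ek nd box)

theorem Lg_le (v : ℝ) : Real.log (3 + |v|) ≤ 4 * (1 + |v|) ^ (1 / 2 : ℝ) := by
  have h0 : 0 ≤ |v| := abs_nonneg v
  have h1 : 0 < 1 + |v| := by positivity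
  have h2 : Real.log (3 + |v|) ≤ Real.log (3 * (1 + |v|)) :=
    Real.log_le_log (by positivity) (by linarith)
  rw [Real.log_mul (by norm_num) h1.ne'] at h2
  have h3 : Real.log 3 ≤ 2 := by
    have := Real.log_le_sub_one_of_pos (show (0 : ℝ) < 3 by norm_num)
    linarith
  have h4 := Real.log_le_rpow_div h1.le (show (0 : ℝ) < 1 / 2 by norm_num)
  have h5 : 1 ≤ (1 + |v|) ^ (1 / 2 : ℝ) := Real.one_le_rpow (by linarith) (by norm_num)
  have h6 : (1 + |v|) ^ (1 / 2 : ℝ) / (1 / 2) = 2 * (1 + |v|) ^ (1 / 2 : ℝ) := by ring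
  linarith

theorem int_Lg : Integrable fun v : ℝ => Real.log (3 + |v|) / (1 + |v|) ^ 2 := by
  have h1 : Integrable (fun x : ℝ => 4 * (1 + ‖x‖) ^ (-(3 / 2) : ℝ)) :=
    (integrable_one_add_norm (by simp; norm_num)).const_mul 4
  have hc : Continuous fun v : ℝ => Real.log (3 + |v|) / (1 + |v|) ^ 2 := by
    refine Continuous.div ?_ (by fun_prop) fun v => ?_
    · exact Continuous.log (by fun_prop) fun v => by positivity
    · positivity
  refine h1.mono' hc.aestronglyMeasurable (Eventually.of_forall fun v => ?_)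
  have h0 : 0 ≤ |v| := abs_nonneg v
  have h2 : 0 < 1 + |v| := by positivity
  have h3 : 0 ≤ Real.log (3 + |v|) := Real.log_nonneg (by linarith)
  rw [Real.norm_of_nonneg (by positivity), Real.norm_eq_abs]
  have h6 : (1 + |v|) ^ (-(3 / 2) : ℝ) = (1 + |v|) ^ (1 / 2 : ℝ) / (1 + |v|) ^ 2 := by
    rw [← Real.rpow_natCast, ← Real.rpow_sub h2]
    norm_num
  rw [h6, ← mul_div_assoc]
  exact div_le_div_of_nonneg_right (Lg_le v) (by positivity)

theorem LL_le {f : ℝ → ℂ} {M : ℝ} (h : ∀ v : ℝ, (1 + |v|) * ‖TT f (v * I)‖ ≤ M) :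
    LL f ≤ M ^ 2 * ∫ v : ℝ, Real.log (3 + |v|) / (1 + |v|) ^ 2 := by
  unfold LL
  rw [← integral_const_mul]
  refine integral_mono_of_nonneg (Eventually.of_forall fun v => ?_) (int_Lg.const_mul _)
    (Eventually.of_forall fun v => ?_)
  · exact mul_nonneg (Pool.Agent.Y23.Lg_pos v).le (sq_nonneg _)
  · have h0 : 0 ≤ |v| := abs_nonneg v
    have h2 : 0 < 1 + |v| := by positivity
    have h3 : 0 ≤ Real.log (3 + |v|) := Real.log_nonneg (by linarith)
    have h4 : ‖TT f (v * I)‖ ≤ M / (1 + |v|) := by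
      rw [le_div_iff₀ h2, mul_comm]
      exact h v
    have h5 := pow_le_pow_left₀ (norm_nonneg _) h4 2
    show Real.log (3 + |v|) * ‖TT f (v * I)‖ ^ 2 ≤ M ^ 2 * (Real.log (3 + |v|) / (1 + |v|) ^ 2)
    calc Real.log (3 + |v|) * ‖TT f (v * I)‖ ^ 2 ≤ Real.log (3 + |v|) * (M / (1 + |v|)) ^ 2 :=
          mul_le_mul_of_nonneg_left h5 h3
      _ = _ := by
        rw [div_pow]
        ring

theorem Hn_sum {a : ℝ} {ν : ℕ∞} {ι : Type} (s : Finset ι) (f : ι → ℝ → ℂ) (h : ∀ i ∈ s, Hn a ν (f i)) :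
    Hn a ν (fun x => ∑ i ∈ s, f i x) := by
  classical
  induction s using Finset.induction_on with
  | empty =>
    simp only [Finset.sum_empty]
    exact Pool.Agent.Y23.G.F.Hn.zero
  | insert i s hi ih =>
    have h1 := (h i (Finset.mem_insert_self i s)).add (ih fun j hj => h j (Finset.mem_insert_of_mem hj))
    have e : (fun x => ∑ j ∈ insert i s, f j x) = fun x => f i x + ∑ j ∈ s, f j x := by
      funext x
      rw [Finset.sum_insert hi]
    rw [e]
    exact h1

/-- the trigonometric polynomial on `[-a, a]` -/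
theorem box_pr (a : ℝ) (c : ℤ →₀ ℂ) (x : ℝ) : box a x * pr a c x =
    ∑ k ∈ c.support, (if k = 0 then 0 else c k / fq a k) *
      (ek a (-k) x + (-cexp (-(fq a k * a))) * ek a 0 x) := by
  unfold pr
  rw [Finset.mul_sum]
  refine Finset.sum_congr rfl fun k _ => ?_
  have e1 : ek a (-k) x = box a x * cexp (fq a k * x) := by
    unfold ek
    have : -nd a (-k) = fq a k := by
      rw [Pool.Agent.Y23.G.F.neg_nd, neg_neg]
      rfl
    rw [this]
  have e2 : ek a 0 x = box a x := by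
    unfold ek
    have : nd a 0 = 0 := fq_zero a
    rw [this]
    simp
  rw [e1, e2]
  ring

theorem Hn_pr {a : ℝ} (ha : 0 < a) (c : ℤ →₀ ℂ) :
    Hn a ((c.support.sup Int.natAbs : ℕ) : ℕ∞) (fun x => box a x * pr a c x) := by
  have e : (fun x => box a x * pr a c x) = fun x => ∑ k ∈ c.support, (if k = 0 then 0 else c k / fq a k) *
      (ek a (-k) x + (-cexp (-(fq a k * a))) * ek a 0 x) := by
    funext x
    exact box_pr a c x
  rw [e]
  refine Hn_sum _ _ fun k hk => ?_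
  refine Pool.Agent.Y23.G.F.Hn.smul ?_ _
  refine Pool.Agent.Y23.G.F.Hn.add ?_ ?_
  · refine Pool.Agent.Y23.G.F.Hn_ek ha ?_
    rw [Int.natAbs_neg]
    exact_mod_cast Finset.le_sup (f := Int.natAbs) hk
  · refine Pool.Agent.Y23.G.F.Hn.smul ?_ _
    refine Pool.Agent.Y23.G.F.Hn_ek ha ?_
    simp

theorem TT_diff {a b : ℝ} (ha : 0 < a) (hba : b < a) {g : ℝ → ℂ} (h0 : ∀ x : ℝ, b ≤ |x| → g x = 0)
    (c : ℤ →₀ ℂ) (w : ℂ) : TT (fun x => g x - box a x * pr a c x) w =
      ∫ x in (-a)..a, (g x - pr a c x) * cexp (w * x) := by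
  unfold TT
  rw [intervalIntegral.integral_of_le (by linarith), ← integral_Icc_eq_integral_Ioc,
    ← integral_indicator measurableSet_Icc]
  congr 1
  funext x
  unfold box
  by_cases hx : x ∈ Icc (-a) a
  · rw [indicator_of_mem hx]
    beta_reduce
    rw [indicator_of_mem hx, one_mul]
  · rw [indicator_of_notMem hx]
    beta_reduce
    rw [indicator_of_notMem hx, zero_mul, sub_zero]
    rw [mem_Icc, ← abs_le, not_le] at hx
    rw [h0 x (by linarith), zero_mul]

/-- **JOB App** -/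
theorem app : S_App := by
  rintro a g ha hg ⟨b, hb, hba, h0⟩ ε hε
  set J : ℝ := ∫ v : ℝ, Real.log (3 + |v|) / (1 + |v|) ^ 2 with hJ
  have hJ0 : 0 ≤ J := integral_nonneg fun v => by
    have h0 : 0 ≤ |v| := abs_nonneg v
    have h3 : 0 ≤ Real.log (3 + |v|) := Real.log_nonneg (by linarith)
    positivity
  set C : ℝ := 8 * a ^ 2 + 4 * a with hC
  have hC0 : 0 < C := by positivity
  set M : ℝ := C ^ 2 * J + 1 with hM
  have hM0 : 0 < M := by positivity
  obtain ⟨δ, hδ, hδ2⟩ : ∃ δ : ℝ, 0 < δ ∧ δ ^ 2 = ε / M := by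
    refine ⟨Real.sqrt (ε / M), Real.sqrt_pos.2 (by positivity), Real.sq_sqrt (by positivity)⟩
  obtain ⟨c, hc⟩ := approx ha (hg.of_le (by norm_num)) hba h0 hδ
  refine ⟨c.support.sup Int.natAbs, fun x => box a x * pr a c x, Hn_pr ha c, ?_⟩
  have h1 : LL (fun x => g x - box a x * pr a c x) ≤ (C * δ) ^ 2 * J := by
    refine LL_le fun v => ?_
    rw [TT_diff ha hba h0]
    exact hc v
  refine h1.trans ?_
  have h2 : (C * δ) ^ 2 * J = (C ^ 2 * J) * (ε / M) := by
    rw [mul_pow, hδ2]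
    ring
  rw [h2, mul_div_assoc', div_le_iff₀ hM0, hM]
  nlinarith [mul_nonneg (sq_nonneg C) hJ0]

end Pool.Agent.Q153.EX
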