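import Mathlib

/-!
# Project EX (helper240), job App, part 1: approximation of smooth functions by trigonometric polynomials
-/

set_option autoImplicit false

open Complex Filter Topology Set MeasureTheory

namespace Pool.Agent.Q153.EX

/-- the frequency of index `k` -/
noncomputable def fq (a : ℝ) (k : ℤ) : ℂ := ((Real.pi * k / a : ℝ) : ℂ) * I

/-- trigonometric polynomials are dense -/
theorem trig_approx {a : ℝ} (ha : 0 < a) {F : ℝ → ℂ} (hF : Continuous F) (h : F (-a) = F a) {δ : ℝ}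
    (hδ : 0 < δ) :
    ∃ c : ℤ →₀ ℂ, ∀ x ∈ Icc (-a) a, ‖F x - ∑ k ∈ c.support, c k * cexp (fq a k * x)‖ ≤ δ := by
  have : Fact (0 < 2 * a) := ⟨by linarith⟩
  have e0 : -a + 2 * a = a := by ring
  have hcont : Continuous (AddCircle.liftIco (2 * a) (-a) F) :=
    AddCircle.liftIco_continuous (by rw [e0]; exact h) hF.continuousOn
  obtain ⟨φ, hφ⟩ : ∃ φ : C(AddCircle (2 * a), ℂ), ∀ x, φ x = AddCircle.liftIco (2 * a) (-a) F x :=
    ⟨⟨_, hcont⟩, fun x => rfl⟩
  have hd : φ ∈ closure ((Submodule.span ℂ (Set.range (@fourier (2 * a))) :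
      Submodule ℂ C(AddCircle (2 * a), ℂ)) : Set C(AddCircle (2 * a), ℂ)) := by
    have h1 : φ ∈ (Submodule.span ℂ (Set.range (@fourier (2 * a)))).topologicalClosure := by
      rw [span_fourier_closure_eq_top]
      trivial
    exact h1
  obtain ⟨q, hq, hqd⟩ := Metric.mem_closure_iff.1 hd δ hδ
  obtain ⟨c, hc⟩ := Finsupp.mem_span_range_iff_exists_finsupp.1 hq
  refine ⟨c, ?_⟩
  have hIco : ∀ x ∈ Ico (-a) a, ‖F x - ∑ k ∈ c.support, c k * cexp (fq a k * x)‖ ≤ δ := by
    intro x hx
    have h1 : ‖φ (x : AddCircle (2 * a)) - q (x : AddCircle (2 * a))‖ ≤ ‖φ - q‖ :=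
      (φ - q).norm_coe_le_norm (x : AddCircle (2 * a))
    rw [dist_eq_norm] at hqd
    have h2 : φ (x : AddCircle (2 * a)) = F x := by
      rw [hφ]
      exact AddCircle.liftIco_coe_apply (by rw [e0]; exact hx)
    have h3 : q (x : AddCircle (2 * a)) = ∑ k ∈ c.support, c k * cexp (fq a k * x) := by
      rw [← hc, Finsupp.sum]
      rw [ContinuousMap.coe_sum, Finset.sum_apply]
      refine Finset.sum_congr rfl fun k _ => ?_
      rw [ContinuousMap.smul_apply, smul_eq_mul, fourier_coe_apply]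
      congr 2
      unfold fq
      have ha' : (a : ℂ) ≠ 0 := by exact_mod_cast ha.ne'
      push_cast
      field_simp
    rw [h2, h3] at h1
    exact h1.trans hqd.le
  have hcl : IsClosed {x : ℝ | ‖F x - ∑ k ∈ c.support, c k * cexp (fq a k * x)‖ ≤ δ} := by
    refine isClosed_le (Continuous.norm (hF.sub ?_)) continuous_const
    refine continuous_finsetSum _ fun k _ => ?_
    fun_prop
  have h4 : closure (Ico (-a) a) ⊆ {x : ℝ | ‖F x - ∑ k ∈ c.support, c k * cexp (fq a k * x)‖ ≤ δ} :=
    closure_minimal hIco hcl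
  rw [closure_Ico (by linarith : -a ≠ a)] at h4
  exact h4

theorem exp_fq {a : ℝ} (ha : 0 < a) (k : ℤ) : cexp (fq a k * a) = cexp (-(fq a k * a)) := by
  have h1 : fq a k * a = -(fq a k * a) + (k : ℂ) * (2 * Real.pi * I) := by
    unfold fq
    have ha' : (a : ℂ) ≠ 0 := by exact_mod_cast ha.ne'
    push_cast
    field_simp
    ring
  conv_lhs => rw [h1]
  rw [Complex.exp_add, Complex.exp_int_mul_two_pi_mul_I, mul_one]

theorem fq_ne {a : ℝ} (ha : 0 < a) {k : ℤ} (hk : k ≠ 0) : fq a k ≠ 0 := by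
  unfold fq
  refine mul_ne_zero ?_ I_ne_zero
  have : (Real.pi * k / a : ℝ) ≠ 0 := by
    have hk' : (k : ℝ) ≠ 0 := by exact_mod_cast hk
    have := Real.pi_pos.ne'
    positivity
  exact_mod_cast this

theorem fq_zero (a : ℝ) : fq a 0 = 0 := by
  unfold fq
  simp

/-- the primitive of the trigonometric polynomial, without the constant term -/
noncomputable def pr (a : ℝ) (c : ℤ →₀ ℂ) (x : ℝ) : ℂ :=
  ∑ k ∈ c.support, (if k = 0 then 0 else c k / fq a k) * (cexp (fq a k * x) - cexp (-(fq a k * a)))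

theorem pr_left (a : ℝ) (c : ℤ →₀ ℂ) : pr a c (-a) = 0 := by
  unfold pr
  refine Finset.sum_eq_zero fun k _ => ?_
  have e : fq a k * ((-a : ℝ) : ℂ) = -(fq a k * a) := by push_cast; ring
  rw [e, sub_self, mul_zero]

theorem pr_right {a : ℝ} (ha : 0 < a) (c : ℤ →₀ ℂ) : pr a c a = 0 := by
  unfold pr
  refine Finset.sum_eq_zero fun k _ => ?_
  rw [exp_fq ha, sub_self, mul_zero]

theorem pr_deriv {a : ℝ} (ha : 0 < a) (c : ℤ →₀ ℂ) (x : ℝ) :
    HasDerivAt (pr a c) (∑ k ∈ c.support, c k * cexp (fq a k * x) - c 0) x := by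
  have h1 : HasDerivAt (pr a c) (∑ k ∈ c.support, (if k = 0 then 0 else c k / fq a k) *
      (fq a k * cexp (fq a k * x))) x := by
    unfold pr
    refine HasDerivAt.fun_sum fun k _ => ?_
    refine HasDerivAt.const_mul _ ?_
    refine HasDerivAt.sub_const _ ?_
    have h2 : HasDerivAt (fun y : ℝ => fq a k * (y : ℂ)) (fq a k * 1) x :=
      (Complex.ofRealCLM.hasDerivAt (x := x)).const_mul (fq a k)
    have h3 := h2.cexp
    rw [mul_one, mul_comm] at h3
    exact h3
  have h2 : ∑ k ∈ c.support, (if k = 0 then 0 else c k / fq a k) * (fq a k * cexp (fq a k * x)) =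
      ∑ k ∈ c.support, c k * cexp (fq a k * x) - c 0 := by
    have h3 : ∀ k ∈ c.support, (if k = 0 then 0 else c k / fq a k) * (fq a k * cexp (fq a k * x)) =
        c k * cexp (fq a k * x) - if k = 0 then c 0 else 0 := by
      intro k _
      by_cases hk : k = 0
      · rw [if_pos hk, if_pos hk, hk, fq_zero]
        simp
      · rw [if_neg hk, if_neg hk, sub_zero]
        have := fq_ne ha hk
        field_simp
    rw [Finset.sum_congr rfl h3, Finset.sum_sub_distrib, Finset.sum_ite_eq']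
    by_cases h0 : (0 : ℤ) ∈ c.support
    · rw [if_pos h0]
    · rw [if_neg h0, Finsupp.notMem_support_iff.1 h0]
  rw [h2] at h1
  exact h1

theorem pr_cont {a : ℝ} (ha : 0 < a) (c : ℤ →₀ ℂ) : Continuous (pr a c) :=
  continuous_iff_continuousAt.2 fun x => (pr_deriv ha c x).continuousAt

theorem deriv_zero {b : ℝ} {g : ℝ → ℂ} (h0 : ∀ x : ℝ, b ≤ |x| → g x = 0) {x : ℝ} (hx : b < |x|) :
    deriv g x = 0 := by
  have h1 : g =ᶠ[𝓝 x] fun _ => 0 := by
    have h2 : ∀ᶠ y in 𝓝 x, b < |y| := continuous_abs.continuousAt.eventually_const_lt hx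
    filter_upwards [h2] with y hy
    exact h0 y hy.le
  rw [h1.deriv_eq, deriv_const]

/-- approximation of the function together with its derivative -/
theorem approx {a b : ℝ} {g : ℝ → ℂ} (ha : 0 < a) (hg : ContDiff ℝ 1 g) (hba : b < a)
    (h0 : ∀ x : ℝ, b ≤ |x| → g x = 0) {δ : ℝ} (hδ : 0 < δ) :
    ∃ c : ℤ →₀ ℂ, ∀ v : ℝ,
      (1 + |v|) * ‖∫ x in (-a)..a, (g x - pr a c x) * cexp (v * I * x)‖ ≤ (8 * a ^ 2 + 4 * a) * δ := by
  have habs : |(-a)| = a := by rw [abs_neg, abs_of_pos ha]
  have habs' : |a| = a := abs_of_pos ha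
  have hgc : Continuous (deriv g) := hg.continuous_deriv le_rfl
  have hgd : ∀ x, HasDerivAt g (deriv g x) x := fun x => (hg.differentiable one_ne_zero x).hasDerivAt
  obtain ⟨c, hc⟩ := trig_approx ha hgc (by
    rw [deriv_zero h0 (by rw [habs]; exact hba), deriv_zero h0 (by rw [habs']; exact hba)]) hδ
  refine ⟨c, ?_⟩
  set q : ℝ → ℂ := fun x => ∑ k ∈ c.support, c k * cexp (fq a k * x) with hq
  have hqc : Continuous q := continuous_finsetSum _ fun k _ => by fun_prop
  have hDd : ∀ x, HasDerivAt (fun x => g x - pr a c x) (deriv g x - (q x - c 0)) x := fun x =>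
    (hgd x).sub (pr_deriv ha c x)
  have hD'c : Continuous fun x => deriv g x - (q x - c 0) := hgc.sub (hqc.sub continuous_const)
  have hD1 : g (-a) - pr a c (-a) = 0 := by
    rw [h0 (-a) (by rw [habs]; exact hba.le), pr_left, sub_zero]
  have hD2 : g a - pr a c a = 0 := by
    rw [h0 a (by rw [habs']; exact hba.le), pr_right ha, sub_zero]
  have hle : -a ≤ a := by linarith
  have h2a : |a - -a| = 2 * a := by
    rw [sub_neg_eq_add, abs_of_pos (by linarith)]
    ring
  -- the constant term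
  have hc0 : ‖c 0‖ ≤ δ := by
    have h1 : ∫ x in (-a)..a, (deriv g x - (q x - c 0)) = 0 := by
      rw [intervalIntegral.integral_eq_sub_of_hasDerivAt (fun x _ => hDd x) (hD'c.intervalIntegrable _ _),
        hD1, hD2, sub_zero]
    have h2 : ∫ x in (-a)..a, (deriv g x - (q x - c 0)) = (∫ x in (-a)..a, (deriv g x - q x)) +
        ∫ x in (-a)..a, c 0 := by
      rw [← intervalIntegral.integral_add (f := fun x => deriv g x - q x) (g := fun _ => c 0)
        ((hgc.sub hqc).intervalIntegrable _ _) (continuous_const.intervalIntegrable _ _)]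
      refine intervalIntegral.integral_congr fun x _ => ?_
      show deriv g x - (q x - c 0) = deriv g x - q x + c 0
      ring
    have h3 : ‖∫ x in (-a)..a, (deriv g x - q x)‖ ≤ δ * (2 * a) := by
      rw [← h2a]
      refine intervalIntegral.norm_integral_le_of_norm_le_const fun x hx => ?_
      rw [uIoc_of_le hle] at hx
      exact hc x ⟨hx.1.le, hx.2⟩
    rw [h1, intervalIntegral.integral_const] at h2
    have h4 : (2 * a) * ‖c 0‖ = ‖∫ x in (-a)..a, (deriv g x - q x)‖ := by
      have h5 : (∫ x in (-a)..a, (deriv g x - q x)) = -((a - -a) • c 0) := by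
        rw [eq_neg_iff_add_eq_zero]
        exact h2.symm
      rw [h5, norm_neg, norm_smul, Real.norm_eq_abs, h2a]
    rw [← h4] at h3
    have : 0 < 2 * a := by linarith
    nlinarith
  have hD'b : ∀ x ∈ Icc (-a) a, ‖deriv g x - (q x - c 0)‖ ≤ 2 * δ := by
    intro x hx
    have e : deriv g x - (q x - c 0) = (deriv g x - q x) + c 0 := by ring
    rw [e]
    calc ‖(deriv g x - q x) + c 0‖ ≤ ‖deriv g x - q x‖ + ‖c 0‖ := norm_add_le _ _
      _ ≤ δ + δ := add_le_add (hc x hx) hc0
      _ = 2 * δ := by ring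
  have hDb : ∀ x ∈ Icc (-a) a, ‖g x - pr a c x‖ ≤ 4 * a * δ := by
    intro x hx
    have h1 : ∫ y in (-a)..x, (deriv g y - (q y - c 0)) = g x - pr a c x := by
      rw [intervalIntegral.integral_eq_sub_of_hasDerivAt (fun x _ => hDd x) (hD'c.intervalIntegrable _ _),
        hD1, sub_zero]
    rw [← h1]
    have h2 : ‖∫ y in (-a)..x, (deriv g y - (q y - c 0))‖ ≤ 2 * δ * |x - -a| := by
      refine intervalIntegral.norm_integral_le_of_norm_le_const fun y hy => ?_
      rw [uIoc_of_le hx.1] at hy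
      exact hD'b y ⟨hy.1.le, hy.2.trans hx.2⟩
    refine h2.trans ?_
    rw [sub_neg_eq_add, abs_of_nonneg (by linarith [hx.1])]
    have := hx.2
    nlinarith
  intro v
  have hexp : ∀ x : ℝ, ‖cexp (v * I * x)‖ = 1 := by
    intro x
    have : (v : ℂ) * I * x = ((v * x : ℝ) : ℂ) * I := by push_cast; ring
    rw [this, Complex.norm_exp_ofReal_mul_I]
  have hed : ∀ x : ℝ, HasDerivAt (fun y : ℝ => cexp (v * I * y)) ((v * I) * cexp (v * I * x)) x := by
    intro x
    have h2 : HasDerivAt (fun y : ℝ => (v * I : ℂ) * (y : ℂ)) ((v * I) * 1) x :=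
      (Complex.ofRealCLM.hasDerivAt (x := x)).const_mul _
    have h3 := h2.cexp
    rw [mul_one] at h3
    have e : cexp (v * I * x) * (v * I) = (v * I) * cexp (v * I * x) := mul_comm _ _
    rw [e] at h3
    exact h3
  have hec : Continuous fun y : ℝ => cexp (v * I * y) := by fun_prop
  have hA : ‖∫ x in (-a)..a, (g x - pr a c x) * cexp (v * I * x)‖ ≤ 4 * a * δ * (2 * a) := by
    rw [← h2a]
    refine intervalIntegral.norm_integral_le_of_norm_le_const fun x hx => ?_
    rw [uIoc_of_le hle] at hx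
    rw [norm_mul, hexp, mul_one]
    exact hDb x ⟨hx.1.le, hx.2⟩
  have hB : |v| * ‖∫ x in (-a)..a, (g x - pr a c x) * cexp (v * I * x)‖ ≤ 2 * δ * (2 * a) := by
    have h1 := intervalIntegral.integral_mul_deriv_eq_deriv_mul (a := -a) (b := a)
      (u := fun x => g x - pr a c x) (v := fun y : ℝ => cexp (v * I * y))
      (fun x _ => hDd x) (fun x _ => hed x) (hD'c.intervalIntegrable _ _)
      ((continuous_const.mul hec).intervalIntegrable _ _)
    rw [hD1, hD2, zero_mul, zero_mul, sub_zero, zero_sub] at h1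
    have h2 : ∫ x in (-a)..a, (g x - pr a c x) * ((v * I) * cexp (v * I * x)) =
        (v * I) * ∫ x in (-a)..a, (g x - pr a c x) * cexp (v * I * x) := by
      rw [← intervalIntegral.integral_const_mul]
      refine intervalIntegral.integral_congr fun x _ => ?_
      show (g x - pr a c x) * ((v * I) * cexp (v * I * x)) = (v * I) * ((g x - pr a c x) * cexp (v * I * x))
      ring
    have h3 : |v| * ‖∫ x in (-a)..a, (g x - pr a c x) * cexp (v * I * x)‖ =
        ‖(v * I) * ∫ x in (-a)..a, (g x - pr a c x) * cexp (v * I * x)‖ := by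
      rw [norm_mul, norm_mul, Complex.norm_I, mul_one, Complex.norm_real, Real.norm_eq_abs]
    rw [h3, ← h2, h1, norm_neg]
    rw [← h2a]
    refine intervalIntegral.norm_integral_le_of_norm_le_const fun x hx => ?_
    rw [uIoc_of_le hle] at hx
    rw [norm_mul, hexp, mul_one]
    exact hD'b x ⟨hx.1.le, hx.2⟩
  nlinarith

end Pool.Agent.Q153.EX
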