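import Pool.Agent.Q81.EX.Stm

/-!
Project EX (helper81), job FIN: the integral of the flux function and the bounds by it.
-/

set_option autoImplicit false

namespace Pool.Agent.Q153.EX

open Pool.Agent.Q81.EX Set MeasureTheory Filter Topology

theorem conc_left {F : ℝ → ℝ} (hc : ConcaveOn ℝ (Icc 0 1) F) (h0 : F 0 = 0) {s x : ℝ}
    (hs : 0 ≤ s) (hsx : s ≤ x) (hx0 : 0 < x) (hx1 : x ≤ 1) : F x / x * s ≤ F s := by
  have ha : 0 ≤ 1 - s / x := by
    rw [sub_nonneg, div_le_one hx0]
    exact hsx
  have hb : 0 ≤ s / x := div_nonneg hs hx0.le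
  have h := hc.2 (show (0 : ℝ) ∈ Icc (0 : ℝ) 1 from ⟨le_refl _, zero_le_one⟩)
    (show x ∈ Icc (0 : ℝ) 1 from ⟨hx0.le, hx1⟩) ha hb (by ring)
  simp only [smul_eq_mul, mul_zero, zero_add, h0] at h
  rw [div_mul_cancel₀ _ hx0.ne'] at h
  calc F x / x * s = s / x * F x := by ring
    _ ≤ F s := h

theorem conc_right {F : ℝ → ℝ} (hc : ConcaveOn ℝ (Icc 0 1) F) (h1 : F 1 = 0) {s x : ℝ}
    (hs : s ≤ 1) (hsx : x ≤ s) (hx0 : 0 ≤ x) (hx1 : x < 1) :
    F x / (1 - x) * (1 - s) ≤ F s := by
  have hx : 0 < 1 - x := by linarith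
  have ha : 0 ≤ (1 - s) / (1 - x) := div_nonneg (by linarith) hx.le
  have hb : 0 ≤ (s - x) / (1 - x) := div_nonneg (by linarith) hx.le
  have h := hc.2 (show x ∈ Icc (0 : ℝ) 1 from ⟨hx0, hx1.le⟩)
    (show (1 : ℝ) ∈ Icc (0 : ℝ) 1 from ⟨zero_le_one, le_refl _⟩) ha hb (by
      rw [← add_div, div_eq_one_iff_eq hx.ne']
      ring)
  simp only [smul_eq_mul, mul_one, h1, mul_zero, add_zero] at h
  have e : (1 - s) / (1 - x) * x + (s - x) / (1 - x) = s := by
    field_simp
    ring
  rw [e] at h
  calc F x / (1 - x) * (1 - s) = (1 - s) / (1 - x) * F x := by ring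
    _ ≤ F s := h

theorem int_FF (hGBD : S_GBD) (hFDV : S_FDV) {p : ℝ → ℝ} (hA : Adm p) :
    ∫ s in (0 : ℝ)..1, FF p s = DD p := by
  obtain ⟨-, hG2, -, hG4, hG5⟩ := hGBD p hA
  obtain ⟨hF1, hF2, hF3, -, -⟩ := hFDV p hA
  have hGc : ContinuousOn (GG p) (Icc 0 1) := fun s hs => (hG2 s hs).continuousWithinAt
  have hFc : ContinuousOn (FF p) (Icc 0 1) := fun s hs => (hF1 s hs).continuousWithinAt
  have hpc := hA.cont
  have hic : ContinuousOn (fun s : ℝ => s) (Icc 0 1) := continuousOn_id
  have ii : ∀ f : ℝ → ℝ, ContinuousOn f (Icc 0 1) → IntervalIntegrable f volume 0 1 := by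
    intro f hf
    refine ContinuousOn.intervalIntegrable ?_
    rw [uIcc_of_le zero_le_one]
    exact hf
  have c1 : ContinuousOn (fun s => s * GG p s) (Icc 0 1) := hic.mul hGc
  have c2 : ContinuousOn (fun s => s * p s) (Icc 0 1) := hic.mul hpc
  have c3 : ContinuousOn (fun s => s ^ 2 * p s) (Icc 0 1) := (hic.pow 2).mul hpc
  have c4 : ContinuousOn (fun s : ℝ => 1 - s) (Icc 0 1) := continuousOn_const.sub hic
  have hder : ∀ x ∈ Ioo (0 : ℝ) 1, HasDerivAt (fun s => (s - 1) * FF p s)
      (FF p x - GG p x + x * GG p x + (1 - x) - 1 / 2 * (x * p x) + 1 / 2 * (x ^ 2 * p x)) x := by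
    intro x hx
    have h := (hF1 x (Ioo_subset_Icc_self hx)).hasDerivAt (Icc_mem_nhds hx.1 hx.2)
    have h2 := ((hasDerivAt_id x).sub_const 1).mul h
    refine h2.congr_deriv ?_
    simp only [id]
    ring
  have hint := intervalIntegral.integral_eq_sub_of_hasDerivAt_of_le zero_le_one
    ((hic.sub continuousOn_const).mul hFc) hder
    (ii _ (((((hFc.sub hGc).add c1).add c4).sub (continuousOn_const.mul c2)).add
      (continuousOn_const.mul c3)))
  have i1 := ii (fun s => FF p s - GG p s + s * GG p s + (1 - s) - 1 / 2 * (s * p s))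
    ((((hFc.sub hGc).add c1).add c4).sub (continuousOn_const.mul c2))
  have i2 := ii (fun s => 1 / 2 * (s ^ 2 * p s)) (continuousOn_const.mul c3)
  have i3 := ii (fun s => FF p s - GG p s + s * GG p s + (1 - s))
    (((hFc.sub hGc).add c1).add c4)
  have i4 := ii (fun s => 1 / 2 * (s * p s)) (continuousOn_const.mul c2)
  have i5 := ii (fun s => FF p s - GG p s + s * GG p s) ((hFc.sub hGc).add c1)
  have i6 := ii (fun s => FF p s - GG p s) (hFc.sub hGc)
  have i7 := ii (fun _ => (1 : ℝ)) continuousOn_const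
  rw [intervalIntegral.integral_add i1 i2, intervalIntegral.integral_sub i3 i4,
    intervalIntegral.integral_add i5 (ii _ c4), intervalIntegral.integral_add i6 (ii _ c1),
    intervalIntegral.integral_sub (ii _ hFc) (ii _ hGc),
    intervalIntegral.integral_const_mul, intervalIntegral.integral_const_mul, hG4, hG5,
    intervalIntegral.integral_sub i7 (ii _ hic),
    intervalIntegral.integral_const, integral_id] at hint
  simp only [Pi.mul_apply, Pi.sub_apply, hF2, hF3] at hint
  have hm := hA.mom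
  unfold I1 at hm
  rw [hm] at hint
  have hI2 : ∫ s in (0 : ℝ)..1, s ^ 2 * p s = I2 p := rfl
  rw [hI2] at hint
  unfold DD
  simp only [smul_eq_mul] at hint
  linarith

theorem fin (hGBD : S_GBD) (hFDV : S_FDV) : S_FIN := by
  intro p hA
  have hint := int_FF hGBD hFDV hA
  obtain ⟨hF1, hF2, hF3, hF4, hF5⟩ := hFDV p hA
  have hFc : ContinuousOn (FF p) (Icc 0 1) := fun s hs => (hF1 s hs).continuousWithinAt
  have ii : ∀ (f : ℝ → ℝ) (a b : ℝ), 0 ≤ a → a ≤ b → b ≤ 1 → ContinuousOn f (Icc 0 1) →
      IntervalIntegrable f volume a b := by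
    intro f a b ha hab hb hf
    refine ContinuousOn.intervalIntegrable ?_
    rw [uIcc_of_le hab]
    exact hf.mono (Icc_subset_Icc ha hb)
  have hD : 0 ≤ DD p := by
    rw [← hint]
    exact intervalIntegral.integral_nonneg zero_le_one fun s hs => (hF5 s hs).1
  refine ⟨hD, ?_⟩
  intro s hs
  constructor
  · have h1 : ∀ x ∈ Icc (0 : ℝ) 1, FF p x * (s * (1 - s)) ≤ FF p s := by
      intro x hx
      have hs0 := hs.1
      have hs1 := hs.2
      have hF0 := (hF5 x hx).1
      rcases le_total s x with h | h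
      · rcases eq_or_lt_of_le hx.1 with h0 | h0
        · rw [← h0, hF2, zero_mul]
          exact (hF5 s hs).1
        · refine le_trans ?_ (conc_left hF4 hF2 hs0 h h0 hx.2)
          have e1 : FF p x ≤ FF p x / x := by
            rw [le_div_iff₀ h0]
            exact mul_le_of_le_one_right hF0 hx.2
          calc FF p x * (s * (1 - s)) ≤ FF p x * s := by
                refine mul_le_mul_of_nonneg_left ?_ hF0
                exact mul_le_of_le_one_right hs0 (by linarith)
            _ ≤ FF p x / x * s := mul_le_mul_of_nonneg_right e1 hs0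
      · rcases eq_or_lt_of_le hx.2 with h0 | h0
        · rw [h0, hF3, zero_mul]
          exact (hF5 s hs).1
        · refine le_trans ?_ (conc_right hF4 hF3 hs1 h hx.1 h0)
          have e1 : FF p x ≤ FF p x / (1 - x) := by
            rw [le_div_iff₀ (by linarith)]
            exact mul_le_of_le_one_right hF0 (by linarith [hx.1])
          calc FF p x * (s * (1 - s)) ≤ FF p x * (1 - s) := by
                refine mul_le_mul_of_nonneg_left ?_ hF0
                exact mul_le_of_le_one_left (by linarith) hs1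
            _ ≤ FF p x / (1 - x) * (1 - s) := mul_le_mul_of_nonneg_right e1 (by linarith)
    have h2 := intervalIntegral.integral_mono_on zero_le_one
      ((ii _ 0 1 (le_refl _) zero_le_one (le_refl _) hFc).mul_const (s * (1 - s)))
      (ii _ 0 1 (le_refl _) zero_le_one (le_refl _) continuousOn_const) h1
    rw [intervalIntegral.integral_mul_const, hint, intervalIntegral.integral_const] at h2
    simpa using h2
  · rcases eq_or_lt_of_le hs.1 with h0 | h0
    · rw [← h0, hF2]
      linarith
    rcases eq_or_lt_of_le hs.2 with h1 | h1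
    · rw [h1, hF3]
      linarith
    have hsplit : (∫ x in (0 : ℝ)..s, FF p x) + ∫ x in s..1, FF p x = DD p := by
      rw [← hint]
      exact intervalIntegral.integral_add_adjacent_intervals
        (ii _ 0 s (le_refl _) hs.1 hs.2 hFc) (ii _ s 1 hs.1 hs.2 (le_refl _) hFc)
    have hic : ContinuousOn (fun x : ℝ => x) (Icc 0 1) := continuousOn_id
    have ha := intervalIntegral.integral_mono_on hs.1
      (ii (fun x => FF p s / s * x) 0 s (le_refl _) hs.1 hs.2 (continuousOn_const.mul hic))
      (ii _ 0 s (le_refl _) hs.1 hs.2 hFc)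
      (fun x hx => conc_left hF4 hF2 hx.1 hx.2 h0 hs.2)
    have hb := intervalIntegral.integral_mono_on hs.2
      (ii (fun x => FF p s / (1 - s) * (1 - x)) s 1 hs.1 hs.2 (le_refl _)
        (continuousOn_const.mul (continuousOn_const.sub hic)))
      (ii _ s 1 hs.1 hs.2 (le_refl _) hFc)
      (fun x hx => conc_right hF4 hF3 hx.2 hx.1 hs.1 h1)
    rw [intervalIntegral.integral_const_mul, integral_id] at ha
    rw [intervalIntegral.integral_const_mul,
      intervalIntegral.integral_sub
        (ii (fun _ => (1 : ℝ)) s 1 hs.1 hs.2 (le_refl _) continuousOn_const)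
        (ii (fun x : ℝ => x) s 1 hs.1 hs.2 (le_refl _) hic),
      intervalIntegral.integral_const, integral_id] at hb
    have e1 : FF p s / s * ((s ^ 2 - 0 ^ 2) / 2) = FF p s * s / 2 := by
      field_simp
      ring
    have h3 : (1 : ℝ) - s ≠ 0 := by linarith
    have e2 : FF p s / (1 - s) * ((1 - s) • (1 : ℝ) - (1 ^ 2 - s ^ 2) / 2) =
        FF p s * (1 - s) / 2 := by
      simp only [smul_eq_mul]
      field_simp
      ring
    rw [e1] at ha
    rw [e2] at hb
    linarith

end Pool.Agent.Q153.EX
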