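import Pool.Agent.Q81.EX.Stm

/-!
Project EX (helper81), job REG: a fixed point of the map gives a solution of the rescaled problem.
-/

set_option autoImplicit false
set_option linter.unusedVariables false
set_option linter.unusedTactic false

namespace Pool.Agent.Q153.EX

open Pool.Agent.Q81.EX Set MeasureTheory Filter Topology

theorem dl_pos : 0 < dl := by
  unfold dl
  positivity

theorem reg (hBND : S_BND) (hGBD : S_GBD) (hFDV : S_FDV) (hHHB : S_HHB) (hQCV : S_QCV)
    (hINV : S_INV) : S_REG := by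
  intro p hp hfix
  have hA : Adm p := hp.1
  have hD : dl ≤ DD p := hp.2.1
  have hdl : 0 < dl := dl_pos
  have hI : 0 < I1 (qq (hh p)) := by
    have h := (hINV p hA hD).1
    have h2 : 0 < DD p / 1440 := by linarith
    linarith
  obtain ⟨hG1, hG2, hG3, -, -⟩ := hGBD p hA
  obtain ⟨hF1, hF2, hF3, -, -⟩ := hFDV p hA
  obtain ⟨hHb, -⟩ := hHHB p hA
  obtain ⟨-, -, -, -, -, hq6, hq7⟩ := hQCV (hh p) hHb
  obtain ⟨lam, hlam⟩ : ∃ lam : ℝ, lam = 2 / 3 / I1 (qq (hh p)) := ⟨_, rfl⟩
  have hlam0 : 0 < lam := by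
    rw [hlam]
    exact div_pos (by norm_num) hI
  have hsub : Ico (0 : ℝ) 1 ⊆ Icc 0 1 := Ico_subset_Icc_self
  have hGpos : ∀ s ∈ Ico (0 : ℝ) 1, 0 < GG p s := by
    intro s hs
    have h := (hG1 s (hsub hs)).1
    have h2 : 0 < (1 - s) ^ 2 / 12 := by
      have : 0 < 1 - s := by linarith [hs.2]
      positivity
    linarith
  have hGc : ContinuousOn (GG p) (Icc 0 1) := fun s hs => (hG2 s hs).continuousWithinAt
  have hFc : ContinuousOn (FF p) (Icc 0 1) := fun s hs => (hF1 s hs).continuousWithinAt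
  have hpe : ∀ s ∈ Icc (0 : ℝ) 1, p s = lam * qq (hh p) s := by
    intro s hs
    rw [← hfix hs, hlam]
    rfl
  have h1 : (1 : ℝ) ∈ Icc (0 : ℝ) 1 := ⟨zero_le_one, le_refl _⟩
  have h0 : (0 : ℝ) ∈ Icc (0 : ℝ) 1 := ⟨le_refl _, zero_le_one⟩
  have hlim : ∀ f : ℝ → ℝ, ContinuousOn f (Icc 0 1) → Tendsto f (𝓝[<] 1) (𝓝 (f 1)) := by
    intro f hf
    have h := (hf 1 h1).mono hsub
    rw [ContinuousWithinAt, nhdsWithin_Ico_eq_nhdsLT (zero_lt_one)] at h
    exact h
  refine ⟨lam, GG p, fun s => -p s, fun s => -(lam * ((∫ r in s..1, (1 - r) * hh p r) -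
    ∫ r in (0 : ℝ)..s, r * hh p r)), fun s => lam * hh p s,
    fun s => lam * (((GG p s - 1 + 1 / 2 * s * p s) * GG p s + FF p s * p s) / GG p s ^ 2), ?_⟩
  refine ⟨hlam0, ?_, ?_, ?_, ?_, ?_, hGpos, ?_, ?_, ?_, ?_, ?_, ?_⟩
  · intro s hs
    exact (hG2 s (hsub hs)).mono hsub
  · intro s hs
    have h := ((hq6 s hs).const_mul lam).neg
    refine h.congr ?_ ?_
    · intro x hx
      rw [hpe x (hsub hx)]
      rfl
    · rw [hpe s (hsub hs)]
      rfl
  · intro s hs
    have h := ((hq7 s hs).const_mul lam).neg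
    have e : -(lam * -hh p s) = lam * hh p s := by ring
    rw [e] at h
    exact h
  · intro s hs
    have hF := (hF1 s (hsub hs)).mono hsub
    have hG := (hG2 s (hsub hs)).mono hsub
    have h := (hF.div hG (hGpos s hs).ne').const_mul lam
    have e : ((GG p s - 1 + 1 / 2 * s * p s) * GG p s - FF p s * -p s) / GG p s ^ 2 =
        ((GG p s - 1 + 1 / 2 * s * p s) * GG p s + FF p s * p s) / GG p s ^ 2 := by
      congr 1
      ring
    rw [e] at h
    exact h
  · have c1 := hGc.mono hsub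
    have c2 := hFc.mono hsub
    have c3 := hA.cont.mono hsub
    refine continuousOn_const.mul (ContinuousOn.div ?_ (c1.pow 2) ?_)
    · exact (((c1.sub continuousOn_const).add
        ((continuousOn_const.mul continuousOn_id).mul c3)).mul c1).add (c2.mul c3)
    · intro s hs
      exact pow_ne_zero 2 (hGpos s hs).ne'
  · intro s hs
    have hG0 := (hGpos s hs).ne'
    simp only [hh]
    field_simp
    ring
  · change -p 0 = 0
    rw [hA.zero, neg_zero]
  · change lam * hh p 0 = 0
    rw [hh, hF2, zero_div, mul_zero]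
  · have h := hlim _ hGc
    rw [hG3] at h
    exact h
  · have h := (hlim _ hA.cont).neg
    rw [hA.one, neg_zero] at h
    exact h
  · have h := (hlim _ hFc).const_mul lam
    rw [hF3, mul_zero] at h
    refine h.congr' ?_
    have hmem : Ico (0 : ℝ) 1 ∈ 𝓝[<] (1 : ℝ) := by
      rw [← nhdsWithin_Ico_eq_nhdsLT (zero_lt_one)]
      exact self_mem_nhdsWithin
    filter_upwards [hmem] with s hs
    have hG0 := (hGpos s hs).ne'
    simp only [hh]
    field_simp

end Pool.Agent.Q153.EX
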